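import Mathlib
import Pool.Agent.MP_8fe08c_co.h66.ConF

set_option autoImplicit false

namespace Pool.Agent.Results.MP_8fe08c_co.Concyclic

open Pool.Agent.MP_8fe08c_co.h31

/-- Every finite set of points on a circle has plane dilation at most `1.47`. -/
theorem result (c : Pt) (r : ℝ) (hr : 0 < r) (P : Finset Pt) (hP : ∀ p ∈ P, dist p c = r) :
    planeDilation P ≤ ENNReal.ofReal (147 / 100) := by
  have := MP_8fe08c_co.h66.concyclic hr hP
  rwa [show ((14700 : ℕ) : ℝ) / 10000 = 147 / 100 by norm_num] at this

end Pool.Agent.Results.MP_8fe08c_co.Concyclic
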