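import Mathlib
import Pool.Agent.MP_8fe08c_co.h76.Final

set_option autoImplicit false

namespace Pool.Agent.Results.MP_8fe08c_co.LowerBound

open Pool.Agent.MP_8fe08c_co

/-- The worst-case plane dilation is at least `1.4467`. -/
theorem result : ENNReal.ofReal (14467 / 10000) ≤ h31.deltaStar := by
  simpa using H76.lower_bound

end Pool.Agent.Results.MP_8fe08c_co.LowerBound
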