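import Mathlib
import Pool.Agent.MP_8fe08c_co.h66.RegF

set_option autoImplicit false

namespace Pool.Agent.Results.MP_8fe08c_co.RegularPolygons

open Real Pool.Agent.MP_8fe08c_co.h31

/-- The vertex set of every regular polygon has plane dilation at most `1.4455`. -/
theorem result (n : ℕ) (hn : 3 ≤ n) (c : Pt) (r θ : ℝ) (hr : 0 < r) (P : Finset Pt)
    (hP : ∀ p, p ∈ P ↔ ∃ k : ℕ,
      p = !₂[c 0 + r * cos (θ + 2 * π * k / n), c 1 + r * sin (θ + 2 * π * k / n)]) :
    planeDilation P ≤ ENNReal.ofReal (14455 / 10000) :=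
  MP_8fe08c_co.h66.regular hr hn P hP

end Pool.Agent.Results.MP_8fe08c_co.RegularPolygons
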