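import Mathlib
import Pool.Agent.MP_8fe08c_co.h82.Final

set_option autoImplicit false

namespace Pool.Agent.Results.MP_8fe08c_co.UpperBound

open Pool.Agent.MP_8fe08c_co.h31

/-- Every finite planar point set has a plane geometric graph, all of whose edges are Delaunay
edges, with stretch factor at most `1.608`. -/
theorem result (P : Finset Pt) : ∃ G : SimpleGraph P, IsPlane P G ∧
    (∀ p q : P, G.Adj p q → ∃ (c : Pt) (r : ℝ), dist (p : Pt) c = r ∧ dist (q : Pt) c = r ∧
      ∀ w ∈ P, r ≤ dist w c) ∧ stretch G ≤ ENNReal.ofReal (201 / 125) :=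
  Pool.Agent.MP_8fe08c_co.h82.upper_bound P

end Pool.Agent.Results.MP_8fe08c_co.UpperBound
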